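import Pool.Agent.H688R3.TuranGenBase

/-!
Turán's construction for `K_4^3`: covers of all quadruples by triples of density `4/9`.
-/

set_option autoImplicit false

open Finset Filter Topology

namespace Pool.Agent.E8helper49.Turan

open Pool.Agent.H688R3.TuranGen

/-- the class of a vertex -/
def cl {N : ℕ} (v : Fin (3 * N)) : Fin 3 := (finProdFinEquiv.symm v).1

/-- the classes -/
def V (N : ℕ) (a : Fin 3) : Finset (Fin (3 * N)) := univ.filter (fun v => cl v = a)

lemma card_V (N : ℕ) (a : Fin 3) : (V N a).card = N := by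
  have h : (univ : Finset (Fin N)).card = (V N a).card := by
    refine Finset.card_bij (fun i _ => finProdFinEquiv (a, i)) ?_ ?_ ?_
    · intro i _
      refine Finset.mem_filter.2 ⟨mem_univ _, ?_⟩
      show (finProdFinEquiv.symm (finProdFinEquiv (a, i))).1 = a
      rw [Equiv.symm_apply_apply]
    · intro i _ j _ h
      have := finProdFinEquiv.injective h
      exact (Prod.mk.inj this).2
    · intro v hv
      have h : (finProdFinEquiv.symm v).1 = a := (Finset.mem_filter.1 hv).2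
      refine ⟨(finProdFinEquiv.symm v).2, mem_univ _, ?_⟩
      rw [← h]
      exact Equiv.apply_symm_apply finProdFinEquiv v
  rw [← h, card_univ, Fintype.card_fin]

/-- Turán's family -/
def F4 (N : ℕ) : Finset (Finset (Fin (3 * N))) :=
  (univ : Finset (Fin 3)).biUnion (fun a => (V N a).powersetCard 3 ∪
    (((V N a).powersetCard 2) ×ˢ V N (a + 2)).image (fun p => insert p.2 p.1))

lemma card_F4 (N : ℕ) : (F4 N).card ≤ 3 * (N.choose 3 + N.choose 2 * N) := by
  unfold F4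
  refine card_biUnion_le.trans ?_
  have h : ∀ a : Fin 3, ((V N a).powersetCard 3 ∪
    (((V N a).powersetCard 2) ×ˢ V N (a + 2)).image (fun p => insert p.2 p.1)).card ≤
      N.choose 3 + N.choose 2 * N := by
    intro a
    refine (card_union_le _ _).trans (add_le_add ?_ ?_)
    · rw [card_powersetCard, card_V]
    · refine card_image_le.trans ?_
      rw [card_product, card_powersetCard, card_V, card_V]
  calc ∑ a : Fin 3, _ ≤ ∑ _a : Fin 3, (N.choose 3 + N.choose 2 * N) :=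
        sum_le_sum fun a _ => h a
    _ = _ := by simp

lemma cov_F4 (N : ℕ) : Cov 3 4 (F4 N) := by
  classical
  refine ⟨fun e he => ?_, fun S hS => ?_⟩
  · unfold F4 at he
    rw [mem_biUnion] at he
    obtain ⟨a, -, he⟩ := he
    rw [mem_union] at he
    rcases he with he | he
    · exact (mem_powersetCard.1 he).2
    · rw [mem_image] at he
      obtain ⟨p, hp, rfl⟩ := he
      rw [mem_product, mem_powersetCard] at hp
      obtain ⟨⟨h1, h2⟩, h3⟩ := hp
      rw [card_insert_of_notMem, h2]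
      intro hmem
      have h4 := h1 hmem
      simp only [V, mem_filter, mem_univ, true_and] at h3 h4
      rw [h4] at h3
      have h5 : ∀ a : Fin 3, a ≠ a + 2 := by decide
      exact h5 a h3
  · set s : Fin 3 → ℕ := fun a => (S.filter (fun v => cl v = a)).card with hs
    have hsum : s 0 + s 1 + s 2 = 4 := by
      have h1 := Finset.card_eq_sum_card_fiberwise (f := fun v => cl v) (s := S)
        (t := (univ : Finset (Fin 3))) (fun v _ => mem_coe.2 (mem_univ _))
      rw [hS, Fin.sum_univ_three] at h1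
      exact h1.symm
    have hsub : ∀ a, S.filter (fun v => cl v = a) ⊆ V N a := by
      intro a v hv
      rw [mem_filter] at hv
      simp only [V, mem_filter, mem_univ, true_and]
      exact hv.2
    have h3 : ∀ a, 3 ≤ s a → ∃ e ∈ F4 N, e ⊆ S := by
      intro a ha
      obtain ⟨e, he, hec⟩ := exists_subset_card_eq ha
      refine ⟨e, ?_, he.trans (filter_subset _ _)⟩
      unfold F4
      rw [mem_biUnion]
      exact ⟨a, mem_univ _, mem_union_left _ (mem_powersetCard.2 ⟨he.trans (hsub a), hec⟩)⟩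
    have h2 : ∀ a, 2 ≤ s a → 1 ≤ s (a + 2) → ∃ e ∈ F4 N, e ⊆ S := by
      intro a ha hb
      obtain ⟨e, he, hec⟩ := exists_subset_card_eq ha
      obtain ⟨v, hv⟩ := card_pos.1 (show 0 < (S.filter (fun v => cl v = a + 2)).card from hb)
      refine ⟨insert v e, ?_, ?_⟩
      · unfold F4
        rw [mem_biUnion]
        refine ⟨a, mem_univ _, mem_union_right _ ?_⟩
        rw [mem_image]
        exact ⟨(e, v), mem_product.2 ⟨mem_powersetCard.2 ⟨he.trans (hsub a), hec⟩, hsub _ hv⟩, rfl⟩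
      · intro x hx
        rw [mem_insert] at hx
        rcases hx with rfl | hx
        · exact (mem_filter.1 hv).1
        · exact (mem_filter.1 (he hx)).1
    by_cases c0 : 3 ≤ s 0
    · exact h3 0 c0
    by_cases c1 : 3 ≤ s 1
    · exact h3 1 c1
    by_cases c2 : 3 ≤ s 2
    · exact h3 2 c2
    by_cases d0 : 2 ≤ s 0 ∧ 1 ≤ s (0 + 2)
    · exact h2 0 d0.1 d0.2
    by_cases d1 : 2 ≤ s 1 ∧ 1 ≤ s (1 + 2)
    · exact h2 1 d1.1 d1.2
    by_cases d2 : 2 ≤ s 2 ∧ 1 ≤ s (2 + 2)
    · exact h2 2 d2.1 d2.2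
    exfalso
    have e0 : (0 + 2 : Fin 3) = 2 := rfl
    have e1 : (1 + 2 : Fin 3) = 0 := rfl
    have e2 : (2 + 2 : Fin 3) = 1 := rfl
    rw [e0] at d0
    rw [e1] at d1
    rw [e2] at d2
    omega

lemma choose_three_cast (n : ℕ) (hn : 3 ≤ n) :
    (n.choose 3 : ℝ) = (n : ℝ) * (n - 1) * (n - 2) / 6 := by
  have := Nat.cast_choose_eq_ascPochhammer_div ℝ n 3
  have e : (((n - (3 - 1) : ℕ)) : ℝ) = (n : ℝ) - 2 := by
    rw [show 3 - 1 = 2 from rfl, Nat.cast_sub (by omega)]
    norm_num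
  rw [e] at this
  rw [this]
  simp only [ascPochhammer_succ_eval, ascPochhammer_zero, Polynomial.eval_one]
  norm_num [Nat.factorial]
  ring

/-- Turán's upper bound `t(3, 4) ≤ 4/9`, that is `π(K_4^3) ≥ 5/9`. -/
theorem t_four : t 3 4 ≤ 4 / 9 := by
  have h1 : Tendsto (fun N : ℕ => c 3 4 (3 * N) / ((3 * N).choose 3 : ℝ)) atTop (𝓝 (t 3 4)) := by
    have h0 : Tendsto (fun N : ℕ => 3 * N) atTop atTop :=
      tendsto_id.const_mul_atTop' (by norm_num)
    exact (tendsto_c 3 4).comp h0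
  have h2 : Tendsto (fun N : ℕ => 4 / ((3 - ((N : ℝ))⁻¹) * (3 - 2 * ((N : ℝ))⁻¹))) atTop
      (𝓝 (4 / ((3 - 0) * (3 - 2 * 0)))) := by
    have h0 : Tendsto (fun N : ℕ => ((N : ℝ))⁻¹) atTop (𝓝 0) := tendsto_inv_atTop_nhds_zero_nat
    refine Tendsto.div tendsto_const_nhds ((h0.const_sub 3).mul ((h0.const_mul 2).const_sub 3)) ?_
    norm_num
  have h3 : (4 : ℝ) / ((3 - 0) * (3 - 2 * 0)) = 4 / 9 := by norm_num
  rw [h3] at h2
  refine le_of_tendsto_of_tendsto h1 h2 ?_
  filter_upwards [eventually_ge_atTop 2] with N hN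
  have hN' : (2 : ℝ) ≤ N := by exact_mod_cast hN
  have h4 := c_le_card (cov_F4 N)
  have h5 := card_F4 N
  have h6 : (N.choose 3 : ℝ) ≤ (N : ℝ) ^ 3 / 6 := by
    have := Nat.choose_le_pow_div (α := ℝ) 3 N
    have h3 : ((Nat.factorial 3 : ℕ) : ℝ) = 6 := by norm_num [Nat.factorial]
    rw [h3] at this
    exact this
  have h7 : (N.choose 2 : ℝ) ≤ (N : ℝ) ^ 2 / 2 := by
    have := Nat.choose_le_pow_div (α := ℝ) 2 N
    have h3 : ((Nat.factorial 2 : ℕ) : ℝ) = 2 := by norm_num [Nat.factorial]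
    rw [h3] at this
    exact this
  have h8 : c 3 4 (3 * N) ≤ 2 * (N : ℝ) ^ 3 := by
    have h9 : ((F4 N).card : ℝ) ≤ 3 * ((N.choose 3 : ℝ) + (N.choose 2 : ℝ) * N) := by
      exact_mod_cast h5
    nlinarith
  have hc := choose_three_cast (3 * N) (by omega)
  have hcp : (0 : ℝ) < ((3 * N).choose 3 : ℝ) := by
    exact_mod_cast Nat.choose_pos (show 3 ≤ 3 * N by omega)
  rw [div_le_div_iff₀ hcp]
  · rw [hc]
    push_cast
    have hNi : (N : ℝ) * (N : ℝ)⁻¹ = 1 := mul_inv_cancel₀ (by linarith)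
    have e1 : (N : ℝ) * (3 - (N : ℝ)⁻¹) = 3 * N - 1 := by linear_combination -hNi
    have e2 : (N : ℝ) * (3 - 2 * (N : ℝ)⁻¹) = 3 * N - 2 := by linear_combination -2 * hNi
    have p1 : 0 < (3 - (N : ℝ)⁻¹) := by
      have : (N : ℝ)⁻¹ ≤ 1 := inv_le_one_of_one_le₀ (by linarith)
      linarith
    have p2 : 0 < (3 - 2 * (N : ℝ)⁻¹) := by
      have : (N : ℝ)⁻¹ ≤ 1 := inv_le_one_of_one_le₀ (by linarith)
      linarith
    calc c 3 4 (3 * N) * ((3 - (N : ℝ)⁻¹) * (3 - 2 * (N : ℝ)⁻¹))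
        ≤ 2 * (N : ℝ) ^ 3 * ((3 - (N : ℝ)⁻¹) * (3 - 2 * (N : ℝ)⁻¹)) :=
          mul_le_mul_of_nonneg_right h8 (mul_pos p1 p2).le
      _ = 2 * N * ((N * (3 - (N : ℝ)⁻¹)) * (N * (3 - 2 * (N : ℝ)⁻¹))) := by ring
      _ = 4 * ((3 * N) * (3 * N - 1) * (3 * N - 2) / 6) := by rw [e1, e2]; ring
  · have : (N : ℝ)⁻¹ ≤ 1 := inv_le_one_of_one_le₀ (by linarith)
    apply mul_pos <;> linarith

end Pool.Agent.E8helper49.Turan
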