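import Pool.Agent.H688R3.TuranGenLimit
import Pool.Agent.E8helper49.Turan.Four

/-!
The excess `D x = (1 - π(K_{x+1}^3))^{-1/2} - x/2` over Turán's formula: it is nonnegative and
superadditive, and vanishes at `x = 2`.
-/

set_option autoImplicit false

open Finset Filter Topology

namespace Pool.Agent.E8helper49.Turan

open Pool.Agent.H688R3.TuranGen Pool.Agent.H120R2.Clique

lemma S_two : S 2 2 = 1 := by
  have h := S_pow (s := 2) le_rfl (x := 2) le_rfl
  have h1 := S_pos (s := 2) le_rfl (x := 2) le_rfl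
  rw [t_self, mul_one] at h
  nlinarith

lemma S_three : 3 / 2 ≤ S 2 3 := by
  have h := S_pow (s := 2) le_rfl (x := 3) (by norm_num)
  have h1 := S_pos (s := 2) le_rfl (x := 3) (by norm_num)
  have h2 := t_four
  have e : t (2 + 1) (3 + 1) = t 3 4 := rfl
  rw [e] at h
  have h3 : 1 ≤ S 2 3 ^ 2 * (4 / 9) := by
    calc 1 = S 2 3 ^ 2 * t 3 4 := h.symm
      _ ≤ _ := mul_le_mul_of_nonneg_left h2 (by positivity)
  nlinarith

lemma half_le : ∀ x : ℕ, 2 ≤ x → (x : ℝ) / 2 ≤ S 2 x
  | 0, h => by omega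
  | 1, h => by omega
  | 2, _ => by rw [S_two]; norm_num
  | 3, _ => by have := S_three; push_cast; linarith
  | x + 4, _ => by
      have h1 := half_le (x + 2) (by omega)
      have h2 := S_add (s := 2) le_rfl (x := x + 2) (y := 2) (by omega) le_rfl
      rw [S_two] at h2
      have e : x + 2 + 2 = x + 4 := by ring
      rw [e] at h2
      push_cast at h1 ⊢
      linarith

/-- the excess -/
noncomputable def D (x : ℕ) : ℝ := S 2 x - x / 2

lemma D_nonneg {x : ℕ} (hx : 2 ≤ x) : 0 ≤ D x := by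
  have := half_le x hx
  unfold D
  linarith

lemma D_two : D 2 = 0 := by
  unfold D
  rw [S_two]
  norm_num

lemma D_add {x y : ℕ} (hx : 2 ≤ x) (hy : 2 ≤ y) : D x + D y ≤ D (x + y) := by
  have := S_add (s := 2) le_rfl hx hy
  unfold D
  push_cast
  linarith

lemma D_mono {x y : ℕ} (hx : 2 ≤ x) (hxy : x + 2 ≤ y) : D x ≤ D y := by
  obtain ⟨z, rfl⟩ := Nat.exists_eq_add_of_le (show x ≤ y by omega)
  have h1 := D_add hx (y := z) (by omega)
  have h2 := D_nonneg (x := z) (by omega)
  linarith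

lemma D_mul {x : ℕ} (hx : 2 ≤ x) : ∀ (q y : ℕ), q * x + 2 ≤ y → (q : ℝ) * D x ≤ D y
  | 0, y, hy => by simpa using D_nonneg (x := y) (by omega)
  | q + 1, y, hy => by
      obtain ⟨z, rfl⟩ := Nat.exists_eq_add_of_le (show x ≤ y by nlinarith)
      have h0 : q * x + 2 ≤ z := by
        have : (q + 1) * x = q * x + x := by ring
        omega
      have h1 := D_mul hx q z h0
      have h2 := D_add hx (y := z) (by omega)
      push_cast
      linarith

lemma D_div {x y : ℕ} (hx : 2 ≤ x) (hy : 2 ≤ y) : (((y - 2) / x : ℕ) : ℝ) * D x ≤ D y := by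
  apply D_mul hx
  have := Nat.div_mul_le_self (y - 2) x
  omega

/-- the linear lower bound -/
lemma D_lin {x y : ℕ} (hx : 2 ≤ x) (hxy : x + 2 ≤ y) :
    (y : ℝ) / (4 * x) * D x ≤ D y := by
  refine le_trans ?_ (D_div hx (by omega))
  apply mul_le_mul_of_nonneg_right _ (D_nonneg hx)
  have hx0 : (0 : ℝ) < x := by exact_mod_cast (show 0 < x by omega)
  rw [div_le_iff₀ (by positivity)]
  have h1 : 1 ≤ (y - 2) / x := (Nat.one_le_div_iff (by omega)).2 (by omega)
  have h2 : y - 2 < (y - 2) / x * x + x := by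
    have := Nat.lt_div_mul_add (a := y - 2) (b := x) (by omega)
    omega
  have h3 : y ≤ (y - 2) / x * (4 * x) := by
    have h4 : x ≤ (y - 2) / x * x := by nlinarith
    have h5 : (y - 2) / x * (4 * x) = 4 * ((y - 2) / x * x) := by ring
    omega
  exact_mod_cast h3

/-- `S` in terms of the density -/
lemma S_eq (x : ℕ) (hx : 2 ≤ x) : S 2 x = 1 / √(1 - turanDensity 3 (x + 1)) := by
  have h := S_pow (s := 2) le_rfl hx
  have h1 := S_pos (s := 2) le_rfl hx
  have ht := t_pos (r := 3) (m := x + 1) le_rfl (by omega)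
  have e : t (2 + 1) (x + 1) = 1 - turanDensity 3 (x + 1) := rfl
  have e' : t 3 (x + 1) = 1 - turanDensity 3 (x + 1) := rfl
  rw [e] at h
  rw [e'] at ht
  have h2 : 0 < √(1 - turanDensity 3 (x + 1)) := Real.sqrt_pos.2 ht
  have h3 : √(1 - turanDensity 3 (x + 1)) ^ 2 = 1 - turanDensity 3 (x + 1) := Real.sq_sqrt ht.le
  rw [eq_div_iff h2.ne']
  have h4 : (S 2 x * √(1 - turanDensity 3 (x + 1))) ^ 2 = 1 ^ 2 := by
    rw [mul_pow, h3, h]; norm_num
  exact (pow_left_inj₀ (by positivity) (by norm_num) (by norm_num)).1 h4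

/-- Turán's formula in terms of the excess -/
lemma formula_iff {x : ℕ} (hx : 2 ≤ x) :
    turanDensity 3 (x + 1) = 1 - (2 / (x : ℝ)) ^ 2 ↔ D x = 0 := by
  have h := S_pow (s := 2) le_rfl hx
  have h1 := S_pos (s := 2) le_rfl hx
  have e : t (2 + 1) (x + 1) = 1 - turanDensity 3 (x + 1) := rfl
  rw [e] at h
  have hx0 : (0 : ℝ) < x := by exact_mod_cast (show 0 < x by omega)
  constructor
  · intro hf
    rw [hf] at h
    have h2 : (S 2 x * (2 / x)) ^ 2 = 1 ^ 2 := by
      rw [mul_pow]; linear_combination h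
    have h3 := (pow_left_inj₀ (by positivity) (by norm_num) (by norm_num)).1 h2
    unfold D
    field_simp at h3
    linarith
  · intro hD
    unfold D at hD
    have h2 : S 2 x = x / 2 := by linarith
    rw [h2] at h
    have h3 : (x : ℝ) ^ 2 * (1 - turanDensity 3 (x + 1)) = 4 := by linear_combination 4 * h
    have h4 : 1 - turanDensity 3 (x + 1) = 4 / (x : ℝ) ^ 2 := by
      rw [eq_div_iff (by positivity)]; linarith
    rw [div_pow]
    linarith

/-- the normalised covering density in terms of the excess -/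
lemma norm_eq {x : ℕ} (hx : 2 ≤ x) :
    (x : ℝ) ^ 2 * (1 - turanDensity 3 (x + 1)) = 4 / (1 + 2 * D x / x) ^ 2 := by
  have h := S_pow (s := 2) le_rfl hx
  have h1 := S_pos (s := 2) le_rfl hx
  have e : t (2 + 1) (x + 1) = 1 - turanDensity 3 (x + 1) := rfl
  rw [e] at h
  have hx0 : (0 : ℝ) < x := by exact_mod_cast (show 0 < x by omega)
  have hD := D_nonneg hx
  rw [eq_div_iff (by positivity)]
  have h2 : 1 + 2 * D x / x = 2 * S 2 x / x := by
    unfold D
    field_simp
    ring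
  rw [h2, div_pow, mul_pow]
  field_simp
  linear_combination 4 * h

lemma norm_le_four {x : ℕ} (hx : 2 ≤ x) :
    (x : ℝ) ^ 2 * (1 - turanDensity 3 (x + 1)) ≤ 4 := by
  rw [norm_eq hx]
  have hD := D_nonneg hx
  have h : (1 : ℝ) ≤ (1 + 2 * D x / x) ^ 2 := by
    apply one_le_pow₀
    have : 0 ≤ 2 * D x / x := by positivity
    linarith
  rw [div_le_iff₀ (by positivity)]
  linarith

/-- amplification -/
lemma norm_le_far {x y : ℕ} (hx : 2 ≤ x) (hxy : x + 2 ≤ y) :
    (y : ℝ) ^ 2 * (1 - turanDensity 3 (y + 1)) ≤ 4 / (1 + D x / (2 * x)) ^ 2 := by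
  rw [norm_eq (by omega)]
  have hD := D_nonneg hx
  have h := D_lin hx hxy
  have hx0 : (0 : ℝ) < x := by exact_mod_cast (show 0 < x by omega)
  have hy0 : (0 : ℝ) < y := by exact_mod_cast (show 0 < y by omega)
  apply div_le_div_of_nonneg_left (by norm_num) (by positivity)
  apply pow_le_pow_left₀ (by positivity)
  have h2 : D x / (2 * x) ≤ 2 * D y / y := by
    rw [le_div_iff₀ hy0]
    calc D x / (2 * x) * y = 2 * ((y : ℝ) / (4 * x) * D x) := by field_simp; ring
      _ ≤ _ := by linarith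
  linarith

lemma far_lt {x : ℕ} (hx : 2 ≤ x) (hD : D x ≠ 0) : 4 / (1 + D x / (2 * x)) ^ 2 < 4 := by
  have hD0 : 0 < D x := lt_of_le_of_ne (D_nonneg hx) (Ne.symm hD)
  have hx0 : (0 : ℝ) < x := by exact_mod_cast (show 0 < x by omega)
  rw [div_lt_iff₀ (by positivity)]
  have h1 : 0 < D x / (2 * x) := by positivity
  have : (1 : ℝ) < (1 + D x / (2 * x)) ^ 2 := by nlinarith
  linarith

/-- the key collapse: asymptotically sharp for arbitrarily large sizes implies exact everywhere -/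
lemma collapse (h : ∀ ε > (0 : ℝ), ∀ M : ℕ, ∃ y ≥ M,
      4 - ε ≤ (y : ℝ) ^ 2 * (1 - turanDensity 3 (y + 1))) {x : ℕ} (hx : 2 ≤ x) : D x = 0 := by
  by_contra hD
  have h1 := far_lt hx hD
  obtain ⟨y, hy, h2⟩ := h ((4 - 4 / (1 + D x / (2 * x)) ^ 2) / 2) (by linarith) (x + 2)
  have h3 := norm_le_far hx hy
  linarith

end Pool.Agent.E8helper49.Turan
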